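import Pool.Agent.MP43a64b.Shilov

set_option autoImplicit false

open WeakDual Set Topology
open scoped BoundedContinuousFunction

namespace Pool.Agent.MP43a64b

variable {X : Type*} [TopologicalSpace X] (A : Subalgebra ℂ (X →ᵇ ℂ))

/-- evaluation at a point, as a weak dual element -/
noncomputable def evPt (x : X) : WeakDual ℂ A :=
  ((BoundedContinuousFunction.evalCLM ℂ x).comp
    (A.toSubmodule.subtypeL) : A →L[ℂ] ℂ)

theorem evPt_apply (x : X) (f : A) : evPt A x f = (f : X →ᵇ ℂ) x := rfl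

theorem evPt_mem (x : X) : evPt A x ∈ characterSpace ℂ A := by
  rw [CharacterSpace.eq_set_map_one_map_mul]
  refine ⟨?_, fun f g => ?_⟩
  · rw [evPt_apply]; simp
  · simp only [evPt_apply]; simp

variable {A}

theorem norm_char_le [CompleteSpace A] {φ : WeakDual ℂ A} (hφ : φ ∈ characterSpace ℂ A) (f : A) :
    ‖φ f‖ ≤ ‖f‖ := by
  have h1 := AlgHom.norm_apply_le_self_mul_norm_one
    (CharacterSpace.toAlgHom (⟨φ, hφ⟩ : characterSpace ℂ A)) f
  have h2 : ‖(1 : A)‖ ≤ 1 := by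
    have : ‖((1 : A) : X →ᵇ ℂ)‖ ≤ 1 := by
      rw [BoundedContinuousFunction.norm_le zero_le_one]
      intro x; simp
    exact this
  have h3 : ‖φ f‖ ≤ ‖f‖ * ‖(1 : A)‖ := h1
  calc ‖φ f‖ ≤ ‖f‖ * ‖(1 : A)‖ := h3
    _ ≤ ‖f‖ * 1 := mul_le_mul_of_nonneg_left h2 (norm_nonneg _)
    _ = ‖f‖ := mul_one _

theorem norm_pt_le (f : A) (x : X) : ‖(f : X →ᵇ ℂ) x‖ ≤ ‖f‖ :=
  (f : X →ᵇ ℂ).norm_coe_le_norm x

theorem norm_le_of_pt {f : A} {M : ℝ} (hM : 0 ≤ M) (h : ∀ x, ‖(f : X →ᵇ ℂ) x‖ ≤ M) : ‖f‖ ≤ M :=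
  (BoundedContinuousFunction.norm_le hM).2 h

theorem norm_le_of_bdry [CompleteSpace A] {S : Set (WeakDual ℂ A)} (hS : IsBdry S) {f : A} {M : ℝ}
    (hM : 0 ≤ M)
    (h : ∀ φ ∈ S, ‖φ f‖ ≤ M) : ‖f‖ ≤ M := by
  refine norm_le_of_pt hM fun x => ?_
  obtain ⟨ψ, hψ, hmax⟩ := hS.2.2 f
  exact (hmax _ (evPt_mem A x)).trans (h ψ hψ)

/-- The functional used in the extremal problem. -/
noncomputable def Psi (z : ℕ → X) (g : X → ℂ) : ℝ := ∑' n : ℕ, (1 / 2 : ℝ) ^ n * ‖g (z n)‖ ^ 2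

theorem psi_summable (z : ℕ → X) {g : X → ℂ} {C : ℝ} (hg : ∀ x, ‖g x‖ ≤ C) :
    Summable fun n : ℕ => (1 / 2 : ℝ) ^ n * ‖g (z n)‖ ^ 2 := by
  refine Summable.of_nonneg_of_le (fun n => by positivity) (fun n => ?_)
    (summable_geometric_two.mul_right (C ^ 2))
  exact mul_le_mul_of_nonneg_left (pow_le_pow_left₀ (norm_nonneg _) (hg _) 2) (by positivity)

theorem psi_le_two (z : ℕ → X) {g : X → ℂ} (hg : ∀ x, ‖g x‖ ≤ 1) : Psi z g ≤ 2 := by
  rw [← tsum_geometric_two]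
  refine (psi_summable z hg).tsum_le_tsum (fun n => ?_) summable_geometric_two
  have : ‖g (z n)‖ ^ 2 ≤ 1 := pow_le_one₀ (norm_nonneg _) (hg _)
  calc (1 / 2 : ℝ) ^ n * ‖g (z n)‖ ^ 2 ≤ (1 / 2 : ℝ) ^ n * 1 :=
        mul_le_mul_of_nonneg_left this (by positivity)
    _ = _ := mul_one _

theorem le_psi (z : ℕ → X) {g : X → ℂ} {C : ℝ} (hg : ∀ x, ‖g x‖ ≤ C) (j : ℕ) :
    (1 / 2 : ℝ) ^ j * ‖g (z j)‖ ^ 2 ≤ Psi z g :=
  (psi_summable z hg).le_tsum j fun n _ => by positivity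

theorem psi_continuousOn (z : ℕ → X) : ContinuousOn (Psi z) {g : X → ℂ | ∀ x, ‖g x‖ ≤ 1} := by
  refine continuousOn_tsum (u := fun n : ℕ => (1 / 2 : ℝ) ^ n) (fun n => ?_)
    summable_geometric_two (fun n g hg => ?_)
  · exact (continuous_const.mul ((continuous_apply (z n)).norm.pow 2)).continuousOn
  · rw [Real.norm_eq_abs, abs_of_nonneg (by positivity)]
    have : ‖g (z n)‖ ^ 2 ≤ 1 := pow_le_one₀ (norm_nonneg _) (hg _)
    calc (1 / 2 : ℝ) ^ n * ‖g (z n)‖ ^ 2 ≤ (1 / 2 : ℝ) ^ n * 1 :=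
          mul_le_mul_of_nonneg_left this (by positivity)
      _ = _ := mul_one _

theorem psi_parallelogram (z : ℕ → X) {g h : X → ℂ} {C D : ℝ} (hg : ∀ x, ‖g x‖ ≤ C)
    (hh : ∀ x, ‖h x‖ ≤ D) :
    Psi z (g + h) + Psi z (g - h) = 2 * (Psi z g + Psi z h) := by
  have hs1 := psi_summable z (g := g + h) (C := C + D) (fun x => by
    simpa using (norm_add_le _ _).trans (add_le_add (hg x) (hh x)))
  have hs2 := psi_summable z (g := g - h) (C := C + D) (fun x => by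
    simpa using (norm_sub_le _ _).trans (add_le_add (hg x) (hh x)))
  unfold Psi
  rw [← hs1.tsum_add hs2, ← (psi_summable z hg).tsum_add (psi_summable z hh), ← tsum_mul_left]
  refine tsum_congr fun n => ?_
  have := parallelogram_law_with_norm ℝ (g (z n)) (h (z n))
  simp only [Pi.add_apply, Pi.sub_apply]
  linear_combination (1 / 2 : ℝ) ^ n * this

theorem psi_smul (z : ℕ → X) (c : ℂ) (g : X → ℂ) : Psi z (c • g) = ‖c‖ ^ 2 * Psi z g := by
  unfold Psi
  rw [← tsum_mul_left]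
  refine tsum_congr fun n => ?_
  simp only [Pi.smul_apply, smul_eq_mul, norm_mul]
  ring

theorem ed_abstract [Nonempty X] [CompleteSpace A]
    (z : ℕ → X) (hz : ∀ f : A, ∀ M : ℝ, 0 ≤ M → (∀ n, ‖(f : X →ᵇ ℂ) (z n)‖ ≤ M) → ‖f‖ ≤ M)
    (hcomp : IsCompact {g : X → ℂ | ∃ f : A, ⇑(f : X →ᵇ ℂ) = g ∧ ‖f‖ ≤ 1}) :
    ExtremallyDisconnected ↥(⋂₀ {K : Set (WeakDual ℂ A) | IsBdry K}) := by
  have hneC : (characterSpace ℂ A).Nonempty := ⟨_, evPt_mem A (Classical.arbitrary X)⟩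
  set S : Set (WeakDual ℂ A) := ⋂₀ {K : Set (WeakDual ℂ A) | IsBdry K} with hSdef
  have hS : IsBdry S := isBdry_sInter hneC
  have hmin : ∀ K, IsBdry K → S ⊆ K := fun K hK => sInter_subset_of_mem hK
  have hSc : ∀ φ ∈ S, φ ∈ characterSpace ℂ A := fun φ hφ => hS.2.1 hφ
  -- peaking functions, in the subtype
  have peak : ∀ O : Set S, IsOpen O → O.Nonempty → ∀ δ : ℝ, 0 < δ →
      ∃ h : A, ‖h‖ ≤ 1 ∧ (∃ t ∈ O, ‖t.1 h‖ = 1 ∨ 1 ≤ δ) ∧ (∃ t : S, ‖t.1 h‖ = 1) ∧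
        ∀ t : S, t ∉ O → ‖t.1 h‖ < δ := by
    intro O hO hne δ hδ
    obtain ⟨O', hO', rfl⟩ := isOpen_induced_iff.1 hO
    obtain ⟨t, ht⟩ := hne
    obtain ⟨h, h1, ⟨φ, hφ, hφ1⟩, h3⟩ := exists_peak hS hmin hO' ⟨t.1, t.2, ht⟩ hδ
    refine ⟨h, norm_le_of_bdry hS zero_le_one fun φ hφ => h1 φ (hSc φ hφ), ?_, ⟨⟨φ, hφ⟩, hφ1⟩,
      fun t ht => h3 t.1 ⟨t.2, ht⟩⟩
    by_cases hφO : φ ∈ O'
    · exact ⟨⟨φ, hφ⟩, hφO, Or.inl hφ1⟩
    · refine ⟨t, ht, Or.inr ?_⟩
      have := h3 φ ⟨hφ, hφO⟩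
      rw [hφ1] at this
      exact this.le
  have hcont : ∀ h : A, Continuous fun t : S => ‖t.1 h‖ := fun h =>
    (continuous_norm_eval h).comp continuous_subtype_val
  refine ⟨fun U hU => ?_⟩
  set W' : Set S := (closure U)ᶜ with hW'
  have hW'o : IsOpen W' := isClosed_closure.isOpen_compl
  -- the class G'
  set G : Set (X → ℂ) := {g : X → ℂ | ∃ f : A, ⇑(f : X →ᵇ ℂ) = g ∧ ‖f‖ ≤ 1 ∧
    ∀ t ∈ W', ‖t.1 f‖ ≤ 1 / 2} with hG
  have hGeq : G = {g : X → ℂ | ∃ f : A, ⇑(f : X →ᵇ ℂ) = g ∧ ‖f‖ ≤ 1} ∩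
      ⋂ h : {h : A // ‖h‖ ≤ 1 ∧ ∀ t : S, t ∉ W' → ‖t.1 h‖ ≤ 1 / 2}, ⋂ x : X,
        {g : X → ℂ | ‖g x * (h.1 : X →ᵇ ℂ) x‖ ≤ 1 / 2} := by
    ext g
    constructor
    · rintro ⟨f, rfl, hf1, hf2⟩
      refine ⟨⟨f, rfl, hf1⟩, ?_⟩
      simp only [mem_iInter, mem_ofPred_eq]
      rintro ⟨h, hh1, hh2⟩ x
      have : ‖f * h‖ ≤ 1 / 2 := by
        refine norm_le_of_bdry hS (by norm_num) fun φ hφ => ?_
        rw [char_mul (hSc φ hφ), norm_mul]
        by_cases hW : (⟨φ, hφ⟩ : S) ∈ W'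
        · calc ‖φ f‖ * ‖φ h‖ ≤ 1 / 2 * 1 :=
                mul_le_mul (hf2 _ hW) ((norm_char_le (hSc φ hφ) h).trans hh1) (norm_nonneg _)
                  (by norm_num)
            _ = 1 / 2 := by norm_num
        · calc ‖φ f‖ * ‖φ h‖ ≤ 1 * (1 / 2) :=
                mul_le_mul ((norm_char_le (hSc φ hφ) f).trans hf1) (hh2 _ hW) (norm_nonneg _)
                  (by norm_num)
            _ = 1 / 2 := by norm_num
      exact (norm_pt_le (f * h) x).trans this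
    · rintro ⟨⟨f, rfl, hf1⟩, hf⟩
      refine ⟨f, rfl, hf1, ?_⟩
      simp only [mem_iInter, mem_ofPred_eq] at hf
      -- by density
      intro t ht
      have hcl : t ∈ closure {s : S | ‖s.1 f‖ ≤ 1 / 2} := by
        rw [mem_closure_iff]
        intro O hO htO
        obtain ⟨h, hh1, ⟨s, hs, hs1⟩, -, hh2⟩ := peak (O ∩ W') (hO.inter hW'o) ⟨t, htO, ht⟩ (1 / 2)
          (by norm_num)
        have hs1' : ‖s.1 h‖ = 1 := by
          rcases hs1 with h | h
          · exact h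
          · norm_num at h
        refine ⟨s, hs.1, ?_⟩
        have h3 := hf ⟨h, hh1, fun t' ht' => (hh2 t' fun hc => ht' hc.2).le⟩
        have h4 : ‖f * h‖ ≤ 1 / 2 := norm_le_of_pt (by norm_num) h3
        have h5 := (norm_char_le (hSc _ s.2) (f * h)).trans h4
        rw [char_mul (hSc _ s.2), norm_mul, hs1', mul_one] at h5
        exact h5
      rw [(isClosed_le (hcont f) continuous_const).closure_eq] at hcl
      exact hcl
  have hGcomp : IsCompact G := by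
    rw [hGeq]
    refine hcomp.inter_right ?_
    refine isClosed_iInter fun h => isClosed_iInter fun x => ?_
    exact isClosed_le ((continuous_apply x).mul continuous_const).norm continuous_const
  have hGne : G.Nonempty := ⟨_, 0, rfl, by simp, by simp⟩
  have hGball : G ⊆ {g : X → ℂ | ∀ x, ‖g x‖ ≤ 1} := by
    rintro g ⟨f, rfl, hf1, -⟩ x
    exact (norm_pt_le f x).trans hf1
  obtain ⟨g₀, ⟨f₀, rfl, hf₀1, hf₀2⟩, hmax⟩ :=
    hGcomp.exists_isMaxOn hGne ((psi_continuousOn z).mono hGball)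
  -- main claim
  have claim : ∀ t : S, t ∉ closure W' → 1 ≤ ‖t.1 f₀‖ := by
    intro t₀ ht₀
    by_contra hlt
    push Not at hlt
    obtain ⟨c, hc1, hc2⟩ := exists_between hlt
    have hc0 : 0 ≤ c := (norm_nonneg _).trans hc1.le
    set W₁ : Set S := {t : S | ‖t.1 f₀‖ < c} ∩ (closure W')ᶜ with hW₁
    have hW₁o : IsOpen W₁ := (isOpen_lt (hcont f₀) continuous_const).inter
      isClosed_closure.isOpen_compl
    obtain ⟨h₀, hh1, -, ⟨t₁, ht₁⟩, hh2⟩ := peak W₁ hW₁o ⟨t₀, hc1, ht₀⟩ ((1 - c) / 2) (by linarith)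
    set e : ℝ := (1 - c) ^ 2 / 2 with he
    have he0 : 0 < e := by
      have : 0 < 1 - c := by linarith
      positivity
    have he1 : e < 1 := by
      have : (1 - c) ^ 2 ≤ 1 := pow_le_one₀ (by linarith) (by linarith)
      linarith
    set h : A := ((1 - c : ℝ) : ℂ) • h₀ with hh
    have hnc : ‖((1 - c : ℝ) : ℂ)‖ = 1 - c := by
      rw [Complex.norm_real, Real.norm_eq_abs, abs_of_pos (by linarith)]
    have hval : ∀ φ : WeakDual ℂ A, ‖φ h‖ = (1 - c) * ‖φ h₀‖ := by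
      intro φ
      rw [hh, map_smul, smul_eq_mul, norm_mul, hnc]
    have hhle : ∀ t : S, ‖t.1 h‖ ≤ 1 - c := by
      intro t
      rw [hval]
      have := (norm_char_le (hSc _ t.2) h₀).trans hh1
      have h2 : 0 < 1 - c := by linarith
      nlinarith
    have hhoff : ∀ t : S, t ∉ W₁ → ‖t.1 h‖ ≤ e := by
      intro t ht
      rw [hval]
      have := hh2 t ht
      have h2 : 0 < 1 - c := by linarith
      nlinarith
    -- a point where h is large
    obtain ⟨j, hj⟩ : ∃ j, e < ‖(h : X →ᵇ ℂ) (z j)‖ ^ 2 := by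
      by_contra hcon
      push Not at hcon
      have h1 : ‖h‖ ≤ Real.sqrt e := hz h _ (Real.sqrt_nonneg _) fun n =>
        Real.le_sqrt_of_sq_le (hcon n)
      have h2 : 1 - c ≤ ‖h‖ := by
        have := norm_char_le (hSc _ t₁.2) h
        rw [hval, ht₁, mul_one] at this
        exact this
      have h3 : (1 - c) ^ 2 ≤ e := by
        calc (1 - c) ^ 2 ≤ Real.sqrt e ^ 2 := pow_le_pow_left₀ (by linarith) (h2.trans h1) 2
          _ = e := Real.sq_sqrt he0.le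
      have h4 : 0 < (1 - c) ^ 2 := by
        have : 0 < 1 - c := by linarith
        positivity
      rw [he] at h3
      linarith
    set b : ℝ := ‖(h : X →ᵇ ℂ) (z j)‖ ^ 2 with hb
    -- the inequality for all k
    have hk : ∀ k : ℕ, 1 ≤ k → (1 / 2 : ℝ) ^ j * b ^ k ≤ 16 * e ^ k := by
      intro k hk1
      set r : ℝ := 1 + 2 * e ^ k with hr
      have hek0 : 0 < e ^ k := by positivity
      have hek1 : e ^ k ≤ 1 := pow_le_one₀ he0.le he1.le
      have hr0 : 0 < r := by positivity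
      have hnr : ‖((r⁻¹ : ℝ) : ℂ)‖ = r⁻¹ := by
        rw [Complex.norm_real, Real.norm_eq_abs, abs_of_pos (by positivity)]
      have hmem : ∀ σ : ℂ, ‖σ‖ = 1 →
          (((r⁻¹ : ℝ) : ℂ) • (⇑(f₀ : X →ᵇ ℂ) + σ • (fun x => ((h : X →ᵇ ℂ) x) ^ k)) : X → ℂ) ∈ G := by
        intro σ hσ
        refine ⟨((r⁻¹ : ℝ) : ℂ) • (f₀ + σ • h ^ k), ?_, ?_, ?_⟩
        · ext x
          simp
          ring
        · refine norm_le_of_bdry hS zero_le_one fun φ hφ => ?_
          rw [map_smul, map_add, map_smul, char_pow (hSc φ hφ), smul_eq_mul, smul_eq_mul, norm_mul,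
            hnr, inv_mul_le_iff₀ hr0, mul_one]
          refine (norm_add_le _ _).trans ?_
          rw [norm_mul, hσ, one_mul, norm_pow]
          by_cases hW : (⟨φ, hφ⟩ : S) ∈ W₁
          · have h1 : ‖φ f₀‖ < c := hW.1
            have h2 : ‖φ h‖ ≤ 1 - c := hhle ⟨φ, hφ⟩
            have h3 : ‖φ h‖ ^ k ≤ ‖φ h‖ := pow_le_of_le_one (norm_nonneg _) (by linarith) (by omega)
            linarith
          · have h1 : ‖φ f₀‖ ≤ 1 := (norm_char_le (hSc φ hφ) f₀).trans hf₀1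
            have h2 : ‖φ h‖ ^ k ≤ e ^ k := pow_le_pow_left₀ (norm_nonneg _) (hhoff ⟨φ, hφ⟩ hW) k
            linarith
        · intro t ht
          have hφ := hSc t.1 t.2
          rw [map_smul, map_add, map_smul, char_pow hφ, smul_eq_mul, smul_eq_mul, norm_mul,
            hnr, inv_mul_le_iff₀ hr0]
          refine (norm_add_le _ _).trans ?_
          rw [norm_mul, hσ, one_mul, norm_pow]
          have hW : t ∉ W₁ := fun hc => hc.2 (subset_closure ht)
          have h1 := hf₀2 t ht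
          have h2 : ‖t.1 h‖ ^ k ≤ e ^ k := pow_le_pow_left₀ (norm_nonneg _) (hhoff t hW) k
          rw [hr]
          linarith
      have hp := hmax (hmem 1 (by simp))
      have hm := hmax (hmem (-1) (by simp))
      simp only [mem_ofPred_eq] at hp hm
      rw [psi_smul, hnr] at hp hm
      set hkf : X → ℂ := fun x => ((h : X →ᵇ ℂ) x) ^ k with hhkf
      have hpar := psi_parallelogram z (g := ⇑(f₀ : X →ᵇ ℂ)) (h := hkf) (C := 1) (D := ‖h‖ ^ k)
        (fun x => (norm_pt_le f₀ x).trans hf₀1) (fun x => by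
          rw [hhkf]
          simp only [norm_pow]
          exact pow_le_pow_left₀ (norm_nonneg _) (norm_pt_le h x) k)
      rw [one_smul] at hp
      rw [neg_one_smul, ← sub_eq_add_neg] at hm
      have hP0 : Psi z (⇑(f₀ : X →ᵇ ℂ)) ≤ 2 := psi_le_two z fun x => (norm_pt_le f₀ x).trans hf₀1
      have hP0' : 0 ≤ Psi z (⇑(f₀ : X →ᵇ ℂ)) := tsum_nonneg fun n => by positivity
      have hr2 : 0 < r ^ 2 := by positivity
      have e1 : Psi z (⇑(f₀ : X →ᵇ ℂ) + hkf) ≤ r ^ 2 * Psi z (⇑(f₀ : X →ᵇ ℂ)) := by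
        rw [inv_pow, inv_mul_le_iff₀ hr2] at hp; exact hp
      have e2 : Psi z (⇑(f₀ : X →ᵇ ℂ) - hkf) ≤ r ^ 2 * Psi z (⇑(f₀ : X →ᵇ ℂ)) := by
        rw [inv_pow, inv_mul_le_iff₀ hr2] at hm; exact hm
      have e3 : Psi z hkf ≤ (r ^ 2 - 1) * Psi z (⇑(f₀ : X →ᵇ ℂ)) := by nlinarith
      have e4 : (r ^ 2 - 1) * Psi z (⇑(f₀ : X →ᵇ ℂ)) ≤ (r ^ 2 - 1) * 2 := by
        refine mul_le_mul_of_nonneg_left hP0 ?_
        have : 1 ≤ r := by rw [hr]; linarith
        nlinarith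
      have e5 : (r ^ 2 - 1) * 2 ≤ 16 * e ^ k := by
        rw [hr]; nlinarith
      have e6 := le_psi z (g := hkf) (C := ‖h‖ ^ k) (fun x => by
          rw [hhkf]
          simp only [norm_pow]
          exact pow_le_pow_left₀ (norm_nonneg _) (norm_pt_le h x) k) j
      have e7 : ‖hkf (z j)‖ ^ 2 = b ^ k := by
        rw [hhkf, hb]
        simp only [norm_pow]
        rw [← pow_mul, ← pow_mul, mul_comm]
      rw [e7] at e6
      linarith
    -- contradiction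
    have hq : 1 < b / e := (one_lt_div he0).2 hj
    obtain ⟨k, hk2⟩ := pow_unbounded_of_one_lt (16 * 2 ^ j) hq
    have hk3 : 16 * 2 ^ j < (b / e) ^ (k + 1) := by
      refine hk2.trans_le ?_
      rw [pow_succ]
      have : 0 ≤ (b / e) ^ k := by positivity
      nlinarith
    have hk4 := hk (k + 1) (by omega)
    rw [div_pow, lt_div_iff₀ (by positivity)] at hk3
    have h2j : (1 / 2 : ℝ) ^ j * 2 ^ j = 1 := by
      rw [← mul_pow]; norm_num
    have h5 : (1 / 2 : ℝ) ^ j * (16 * 2 ^ j * e ^ (k + 1)) < (1 / 2 : ℝ) ^ j * b ^ (k + 1) :=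
      mul_lt_mul_of_pos_left hk3 (by positivity)
    have h6 : (1 / 2 : ℝ) ^ j * (16 * 2 ^ j * e ^ (k + 1)) = 16 * e ^ (k + 1) := by
      calc (1 / 2 : ℝ) ^ j * (16 * 2 ^ j * e ^ (k + 1))
          = ((1 / 2 : ℝ) ^ j * 2 ^ j) * (16 * e ^ (k + 1)) := by ring
        _ = _ := by rw [h2j, one_mul]
    linarith
  -- conclusion
  have hU1 : ∀ t ∈ closure U, 1 ≤ ‖t.1 f₀‖ := by
    have hsub : U ⊆ {t : S | 1 ≤ ‖t.1 f₀‖} := by
      intro t ht
      refine claim t ?_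
      have hdisj : Disjoint U (closure W') := by
        refine Disjoint.closure_right ?_ hU
        rw [hW', disjoint_compl_right_iff_subset]
        exact subset_closure
      exact fun hc => (disjoint_left.1 hdisj) ht hc
    exact fun t ht => (closure_minimal hsub (isClosed_le continuous_const (hcont f₀))) ht
  have hU2 : ∀ t ∈ closure W', ‖t.1 f₀‖ ≤ 1 / 2 := by
    exact fun t ht => (closure_minimal (fun t ht => hf₀2 t ht)
      (isClosed_le (hcont f₀) continuous_const)) ht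
  have heq : closure U = (closure W')ᶜ := by
    apply Subset.antisymm
    · intro t ht hc
      have := hU1 t ht
      have := hU2 t hc
      linarith
    · intro t ht
      by_contra hc
      exact ht (subset_closure hc)
  rw [heq]
  exact isClosed_closure.isOpen_compl

end Pool.Agent.MP43a64b
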