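import Mathlib

set_option autoImplicit false

open WeakDual Set Topology

namespace Pool.Agent.MP43a64b

variable {A : Type*} [NormedCommRing A] [NormedAlgebra ℂ A]

/-- Closed sets of characters on which every Gelfand transform attains its maximum modulus. -/
def IsBdry (K : Set (WeakDual ℂ A)) : Prop :=
  IsClosed K ∧ K ⊆ characterSpace ℂ A ∧
    ∀ a : A, ∃ ψ ∈ K, ∀ φ ∈ characterSpace ℂ A, ‖φ a‖ ≤ ‖ψ a‖

theorem char_mul {φ : WeakDual ℂ A} (h : φ ∈ characterSpace ℂ A) (a b : A) :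
    φ (a * b) = φ a * φ b := h.2 a b

theorem char_one {φ : WeakDual ℂ A} (h : φ ∈ characterSpace ℂ A) : φ (1 : A) = 1 := by
  have := map_one (⟨φ, h⟩ : characterSpace ℂ A)
  exact this

theorem char_pow {φ : WeakDual ℂ A} (h : φ ∈ characterSpace ℂ A) (a : A) (n : ℕ) :
    φ (a ^ n) = φ a ^ n := by
  have := map_pow (⟨φ, h⟩ : characterSpace ℂ A) a n
  exact this

theorem continuous_norm_eval (a : A) : Continuous fun φ : WeakDual ℂ A => ‖φ a‖ :=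
  (WeakDual.eval_continuous a).norm

/-- basic neighbourhoods -/
def V (s : Finset A) : Set (WeakDual ℂ A) := {φ | ∀ a ∈ s, ‖φ a‖ < 1}

theorem isOpen_V (s : Finset A) : IsOpen (V s) := by
  have : V s = ⋂ a ∈ s, {φ : WeakDual ℂ A | ‖φ a‖ < 1} := by
    ext φ; simp [V]
  rw [this]
  exact isOpen_biInter_finset fun a _ => isOpen_lt (continuous_norm_eval a) continuous_const

theorem exists_V_subset {x : WeakDual ℂ A} (hx : x ∈ characterSpace ℂ A)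
    {O : Set (WeakDual ℂ A)} (hO : IsOpen O) (hxO : x ∈ O) :
    ∃ s : Finset A, x ∈ V s ∧ V s ∩ characterSpace ℂ A ⊆ O := by
  classical
  have hemb : IsEmbedding (fun (φ : WeakDual ℂ A) (a : A) => φ a) :=
    WeakBilin.isEmbedding (B := topDualPairing ℂ A) ContinuousLinearMap.coe_injective
  obtain ⟨O', hO', rfl⟩ := hemb.isInducing.isOpen_iff.1 hO
  rw [isOpen_pi_iff] at hO'
  obtain ⟨I, u, hu, hsub⟩ := hO' _ hxO
  have : ∀ a ∈ I, ∃ ε > 0, Metric.ball (x a) ε ⊆ u a := fun a ha =>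
    Metric.isOpen_iff.1 (hu a ha).1 _ (hu a ha).2
  choose! ε hε hball using this
  refine ⟨I.image (fun a => ((ε a : ℂ)⁻¹) • (a - (x a) • (1 : A))), ?_, ?_⟩
  · intro b hb
    obtain ⟨a, ha, rfl⟩ := Finset.mem_image.1 hb
    simp only [map_smul, map_sub, char_one hx, smul_eq_mul, mul_one, sub_self, mul_zero, norm_zero]
    norm_num
  · rintro φ ⟨hφ, hφc⟩
    refine hsub ?_
    intro a ha
    apply hball a ha
    have h1 := hφ _ (Finset.mem_image_of_mem _ ha)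
    simp only [map_smul, map_sub, char_one hφc, smul_eq_mul, mul_one] at h1
    rw [norm_mul, norm_inv, Complex.norm_real, Real.norm_eq_abs, abs_of_pos (hε a ha)] at h1
    rw [Metric.mem_ball, dist_eq_norm]
    have h2 := hε a ha
    rw [inv_mul_lt_iff₀ h2] at h1
    simpa using h1

section complete

variable [CompleteSpace A]

theorem isCompact_char : IsCompact (characterSpace ℂ A) := by
  rw [isCompact_iff_compactSpace]
  infer_instance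

theorem IsBdry.isCompact {K : Set (WeakDual ℂ A)} (h : IsBdry K) : IsCompact K :=
  isCompact_char.of_isClosed_subset h.1 h.2.1

/-- Bear's lemma -/
theorem bear {s : Finset A} {F₀ : Set (WeakDual ℂ A)} (hF₀ : IsBdry F₀) (hdisj : V s ∩ F₀ = ∅)
    {F : Set (WeakDual ℂ A)} (hF : IsBdry F) : IsBdry (F \ V s) := by
  have hcl : IsClosed (F \ V s) := hF.1.sdiff (isOpen_V s)
  have hsub : F \ V s ⊆ characterSpace ℂ A := sdiff_subset.trans hF.2.1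
  by_contra hcon
  -- a with sup on F \ V smaller than max
  have key : ∃ a : A, ∃ c : ℝ, 0 ≤ c ∧ c < 1 ∧ (∀ ψ ∈ F \ V s, ‖ψ a‖ ≤ c) ∧
      (∀ φ ∈ characterSpace ℂ A, ‖φ a‖ ≤ 1) ∧ (∃ φ ∈ F₀, ‖φ a‖ = 1) := by
    by_cases hne : (F \ V s).Nonempty
    · have : ∃ a : A, ∀ ψ ∈ F \ V s, ∃ φ ∈ characterSpace ℂ A, ‖ψ a‖ < ‖φ a‖ := by
        by_contra h
        push Not at h
        exact hcon ⟨hcl, hsub, h⟩
      obtain ⟨a, ha⟩ := this
      obtain ⟨φ₀, hφ₀, hmax⟩ := hF₀.2.2 a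
      have hcomp : IsCompact (F \ V s) := isCompact_char.of_isClosed_subset hcl hsub
      obtain ⟨ψ₀, hψ₀, hψmax⟩ := hcomp.exists_isMaxOn hne (continuous_norm_eval a).continuousOn
      obtain ⟨φ₁, hφ₁, hlt⟩ := ha ψ₀ hψ₀
      have hm : ‖ψ₀ a‖ < ‖φ₀ a‖ := hlt.trans_le (hmax φ₁ hφ₁)
      have hmpos : 0 < ‖φ₀ a‖ := (norm_nonneg _).trans_lt hm
      have hne0 : φ₀ a ≠ 0 := norm_pos_iff.1 hmpos
      refine ⟨(φ₀ a)⁻¹ • a, ‖ψ₀ a‖ / ‖φ₀ a‖, by positivity, (div_lt_one hmpos).2 hm, ?_, ?_, ?_⟩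
      · intro ψ hψ
        rw [map_smul, smul_eq_mul, norm_mul, norm_inv, div_eq_inv_mul]
        exact mul_le_mul_of_nonneg_left (hψmax hψ) (by positivity)
      · intro φ hφ
        rw [map_smul, smul_eq_mul, norm_mul, norm_inv, ← div_eq_inv_mul]
        exact (div_le_one hmpos).2 (hmax φ hφ)
      · refine ⟨φ₀, hφ₀, ?_⟩
        rw [map_smul, smul_eq_mul, inv_mul_cancel₀ hne0, norm_one]
    · obtain ⟨φ₀, hφ₀, -⟩ := hF₀.2.2 1
      refine ⟨1, 0, le_refl _, zero_lt_one, ?_, ?_, ?_⟩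
      · intro ψ hψ; exact absurd ⟨ψ, hψ⟩ hne
      · intro φ hφ; rw [char_one hφ, norm_one]
      · exact ⟨φ₀, hφ₀, by rw [char_one (hF₀.2.1 hφ₀), norm_one]⟩
  obtain ⟨a, c, hc0, hc1, hcF, hle, φ₁, hφ₁, hφ₁a⟩ := key
  -- bound for elements of s on characters
  obtain ⟨B, hB0, hB⟩ : ∃ B : ℝ, 0 < B ∧ ∀ b ∈ s, ∀ φ ∈ characterSpace ℂ A, ‖φ b‖ ≤ B := by
    have : ∀ b : A, ∃ B : ℝ, ∀ φ ∈ characterSpace ℂ A, ‖φ b‖ ≤ B := fun b =>
      let ⟨ψ, _, h⟩ := hF₀.2.2 b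
      ⟨‖ψ b‖, h⟩
    choose B hB using this
    refine ⟨1 + ∑ b ∈ s, |B b|, by positivity, fun b hb φ hφ => ?_⟩
    calc ‖φ b‖ ≤ B b := hB b φ hφ
      _ ≤ |B b| := le_abs_self _
      _ ≤ ∑ b ∈ s, |B b| := Finset.single_le_sum (f := fun b => |B b|) (fun _ _ => abs_nonneg _) hb
      _ ≤ _ := by linarith
  obtain ⟨N, hN⟩ : ∃ N : ℕ, c ^ N * B < 1 := by
    obtain ⟨N, hN⟩ := exists_pow_lt_of_lt_one (show (0:ℝ) < 1 / B by positivity) hc1
    exact ⟨N, by rwa [lt_div_iff₀ hB0] at hN⟩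
  -- a ^ (N+1) * b is < 1 everywhere
  have hall : ∀ b ∈ s, ∀ φ ∈ characterSpace ℂ A, ‖φ (a ^ N * b)‖ < 1 := by
    intro b hb φ hφ
    obtain ⟨ψ, hψ, hψmax⟩ := hF.2.2 (a ^ N * b)
    refine (hψmax φ hφ).trans_lt ?_
    have hψc := hF.2.1 hψ
    rw [char_mul hψc, char_pow hψc, norm_mul, norm_pow]
    by_cases hV : ψ ∈ V s
    · have h1 : ‖ψ a‖ ^ N ≤ 1 := pow_le_one₀ (norm_nonneg _) (hle ψ hψc)
      have h2 : ‖ψ b‖ < 1 := hV b hb
      calc ‖ψ a‖ ^ N * ‖ψ b‖ ≤ 1 * ‖ψ b‖ := mul_le_mul_of_nonneg_right h1 (norm_nonneg _)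
        _ < 1 := by linarith
    · have h1 : ‖ψ a‖ ^ N ≤ c ^ N := pow_le_pow_left₀ (norm_nonneg _) (hcF ψ ⟨hψ, hV⟩) N
      calc ‖ψ a‖ ^ N * ‖ψ b‖ ≤ c ^ N * B :=
            mul_le_mul h1 (hB b hb ψ hψc) (norm_nonneg _) (by positivity)
        _ < 1 := hN
  have hφ₁V : φ₁ ∈ V s := by
    intro b hb
    have h1 := hall b hb φ₁ (hF₀.2.1 hφ₁)
    rw [char_mul (hF₀.2.1 hφ₁), char_pow (hF₀.2.1 hφ₁), norm_mul, norm_pow, hφ₁a, one_pow,
      one_mul] at h1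
    exact h1
  have : φ₁ ∈ V s ∩ F₀ := ⟨hφ₁V, hφ₁⟩
  rw [hdisj] at this
  exact this

theorem isBdry_char (hne : (characterSpace ℂ A).Nonempty) :
    IsBdry (characterSpace ℂ A) := by
  refine ⟨isCompact_char.isClosed, Subset.rfl, fun a => ?_⟩
  obtain ⟨ψ, hψ, hmax⟩ := isCompact_char.exists_isMaxOn hne (continuous_norm_eval a).continuousOn
  exact ⟨ψ, hψ, fun φ hφ => hmax hφ⟩

/-- **Shilov's theorem** -/
theorem isBdry_sInter (hne : (characterSpace ℂ A).Nonempty) :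
    IsBdry (⋂₀ {K : Set (WeakDual ℂ A) | IsBdry K}) := by
  classical
  have hchar := isBdry_char hne
  refine ⟨isClosed_sInter fun K hK => hK.1, sInter_subset_of_mem hchar, fun a => ?_⟩
  set M : Set (WeakDual ℂ A) :=
    {ψ | ψ ∈ characterSpace ℂ A ∧ ∀ φ ∈ characterSpace ℂ A, ‖φ a‖ ≤ ‖ψ a‖} with hM
  have hMclosed : IsClosed M := by
    have : M = characterSpace ℂ A ∩ ⋂ φ ∈ characterSpace ℂ A, {ψ : WeakDual ℂ A | ‖φ a‖ ≤ ‖ψ a‖} := by
      ext ψ; simp [hM]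
    rw [this]
    exact isCompact_char.isClosed.inter <| isClosed_biInter fun φ _ =>
      isClosed_le continuous_const (continuous_norm_eval a)
  have hMcomp : IsCompact M := isCompact_char.of_isClosed_subset hMclosed fun ψ hψ => hψ.1
  by_contra hcon
  have hdis : ∀ x ∈ M, x ∉ ⋂₀ {K : Set (WeakDual ℂ A) | IsBdry K} := by
    intro x hx hxS
    exact hcon ⟨x, hxS, hx.2⟩
  have hcov : ∀ x ∈ M, ∃ s : Finset A, x ∈ V s ∧
      ∃ F₀ : Set (WeakDual ℂ A), IsBdry F₀ ∧ V s ∩ F₀ = ∅ := by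
    intro x hx
    have := hdis x hx
    rw [mem_sInter] at this
    push Not at this
    obtain ⟨F₀, hF₀, hxF₀⟩ := this
    obtain ⟨s, hxs, hsub⟩ := exists_V_subset hx.1 hF₀.1.isOpen_compl hxF₀
    refine ⟨s, hxs, F₀, hF₀, ?_⟩
    ext y
    simp only [mem_inter_iff, mem_empty_iff_false, iff_false, not_and]
    intro hyV hyF
    exact hsub ⟨hyV, hF₀.2.1 hyF⟩ hyF
  choose! s hs F₀ hF₀ hdisj using hcov
  obtain ⟨ht, hcover⟩ := hMcomp.elim_nhds_subcover' (fun x _ => V (s x))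
    (fun x hx => (isOpen_V (s x)).mem_nhds (hs x hx))
  -- remove all
  have hrem : ∀ t' : Finset M, IsBdry (characterSpace ℂ A \ ⋃ x ∈ t', V (s (x : WeakDual ℂ A))) := by
    intro t'
    induction t' using Finset.induction_on with
    | empty => simpa using hchar
    | insert x t' hx ih =>
      have := bear (hF₀ x.1 x.2) (hdisj x.1 x.2) ih
      convert this using 1
      rw [Finset.set_biUnion_insert, union_comm, sdiff_sdiff]
  obtain ⟨ψ, hψ, hψmax⟩ := (hrem ht).2.2 a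
  exact hψ.2 (hcover ⟨hψ.1, hψmax⟩)

/-- Minimality of the Shilov boundary, in quantitative form. -/
theorem exists_peak {S : Set (WeakDual ℂ A)} (hS : IsBdry S) (hmin : ∀ K, IsBdry K → S ⊆ K)
    {O : Set (WeakDual ℂ A)} (hO : IsOpen O) (hne : (S ∩ O).Nonempty) {δ : ℝ} (hδ : 0 < δ) :
    ∃ h : A, (∀ φ ∈ characterSpace ℂ A, ‖φ h‖ ≤ 1) ∧ (∃ φ ∈ S, ‖φ h‖ = 1) ∧
      ∀ φ ∈ S \ O, ‖φ h‖ < δ := by
  have hcl : IsClosed (S \ O) := hS.1.sdiff hO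
  have hsub : S \ O ⊆ characterSpace ℂ A := sdiff_subset.trans hS.2.1
  have hnot : ¬ IsBdry (S \ O) := by
    intro hb
    obtain ⟨x, hxS, hxO⟩ := hne
    exact (hmin _ hb hxS).2 hxO
  by_cases hne' : (S \ O).Nonempty
  · have : ∃ a : A, ∀ ψ ∈ S \ O, ∃ φ ∈ characterSpace ℂ A, ‖ψ a‖ < ‖φ a‖ := by
      by_contra h
      push Not at h
      exact hnot ⟨hcl, hsub, h⟩
    obtain ⟨a, ha⟩ := this
    obtain ⟨φ₀, hφ₀, hmax⟩ := hS.2.2 a
    have hcomp : IsCompact (S \ O) := isCompact_char.of_isClosed_subset hcl hsub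
    obtain ⟨ψ₀, hψ₀, hψmax⟩ := hcomp.exists_isMaxOn hne' (continuous_norm_eval a).continuousOn
    obtain ⟨φ₁, hφ₁, hlt⟩ := ha ψ₀ hψ₀
    have hm : ‖ψ₀ a‖ < ‖φ₀ a‖ := hlt.trans_le (hmax φ₁ hφ₁)
    have hmpos : 0 < ‖φ₀ a‖ := (norm_nonneg _).trans_lt hm
    have hne0 : φ₀ a ≠ 0 := norm_pos_iff.1 hmpos
    have hq : ‖ψ₀ a‖ / ‖φ₀ a‖ < 1 := (div_lt_one hmpos).2 hm
    obtain ⟨N, hN⟩ := exists_pow_lt_of_lt_one hδ hq
    have hle : ∀ φ ∈ characterSpace ℂ A, ‖φ ((φ₀ a)⁻¹ • a)‖ ≤ 1 := by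
      intro φ hφ
      rw [map_smul, smul_eq_mul, norm_mul, norm_inv, ← div_eq_inv_mul]
      exact (div_le_one hmpos).2 (hmax φ hφ)
    refine ⟨((φ₀ a)⁻¹ • a) ^ N, ?_, ⟨φ₀, hφ₀, ?_⟩, ?_⟩
    · intro φ hφ
      rw [char_pow hφ, norm_pow]
      exact pow_le_one₀ (norm_nonneg _) (hle φ hφ)
    · rw [char_pow (hS.2.1 hφ₀), map_smul, smul_eq_mul, inv_mul_cancel₀ hne0, one_pow, norm_one]
    · intro ψ hψ
      rw [char_pow (hsub hψ), norm_pow, map_smul, smul_eq_mul, norm_mul, norm_inv]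
      refine lt_of_le_of_lt (pow_le_pow_left₀ (by positivity) ?_ N) hN
      rw [div_eq_inv_mul]
      exact mul_le_mul_of_nonneg_left (hψmax hψ) (by positivity)
  · obtain ⟨φ₀, hφ₀, -⟩ := hS.2.2 1
    refine ⟨1, ?_, ⟨φ₀, hφ₀, ?_⟩, ?_⟩
    · intro φ hφ; rw [char_one hφ, norm_one]
    · rw [char_one (hS.2.1 hφ₀), norm_one]
    · intro ψ hψ; exact absurd ⟨ψ, hψ⟩ hne'

end complete

end Pool.Agent.MP43a64b
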