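import Mathlib

set_option autoImplicit false

open Set Topology Filter
open scoped Manifold

namespace Pool.Agent.MP43a64b

variable {R : Type*} [TopologicalSpace R] [ChartedSpace ℂ R] [IsManifold 𝓘(ℂ) ⊤ R]

theorem mdiffAt_iff {f : R → ℂ} {x x' : R} (hx : x' ∈ (chartAt ℂ x).source) :
    MDifferentiableAt 𝓘(ℂ) 𝓘(ℂ) f x' ↔
      ContinuousAt f x' ∧ DifferentiableAt ℂ (f ∘ (chartAt ℂ x).symm) (chartAt ℂ x x') := by
  haveI : IsManifold 𝓘(ℂ) 1 R := IsManifold.of_le (n := ⊤) le_top
  rw [mdifferentiableAt_iff_of_mem_source (I := 𝓘(ℂ)) (I' := 𝓘(ℂ)) (x := x) (y := f x') hx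
    (by simp)]
  simp [← differentiableWithinAt_univ]

theorem diff_chart {f : R → ℂ} (hf : MDifferentiable 𝓘(ℂ) 𝓘(ℂ) f) (x : R) :
    DifferentiableOn ℂ (f ∘ (chartAt ℂ x).symm) (chartAt ℂ x).target := by
  intro w hw
  have h1 : (chartAt ℂ x).symm w ∈ (chartAt ℂ x).source := (chartAt ℂ x).map_target hw
  have h2 := ((mdiffAt_iff h1).1 (hf _)).2
  rw [(chartAt ℂ x).right_inv hw] at h2
  exact h2.differentiableWithinAt

/-- Limits of locally bounded families of holomorphic functions. -/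
theorem mdiff_of_closure {g : R → ℂ}
    (hg : g ∈ closure {f : R → ℂ | MDifferentiable 𝓘(ℂ) 𝓘(ℂ) f ∧ ∀ x, ‖f x‖ ≤ 1}) :
    MDifferentiable 𝓘(ℂ) 𝓘(ℂ) g := by
  intro x
  set B : Set (R → ℂ) := {f : R → ℂ | MDifferentiable 𝓘(ℂ) 𝓘(ℂ) f ∧ ∀ x, ‖f x‖ ≤ 1} with hB
  set φ := chartAt ℂ x with hφ
  have hxs : x ∈ φ.source := mem_chart_source ℂ x
  have hφx : φ x ∈ φ.target := φ.map_source hxs
  obtain ⟨r, hr, hball⟩ := Metric.isOpen_iff.1 φ.open_target (φ x) hφx
  set s : Set ℂ := Metric.ball (φ x) (r / 4) with hs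
  have hr4 : 0 < r / 4 := by positivity
  have hsub : s ⊆ φ.target := (Metric.ball_subset_ball (by linarith)).trans hball
  -- Lipschitz estimate
  have hlip : ∀ f ∈ B, ∀ w ∈ s, ∀ w' ∈ s,
      ‖f (φ.symm w) - f (φ.symm w')‖ ≤ (1 / (r / 4)) * ‖w - w'‖ := by
    intro f hf w hw w' hw'
    have hd := diff_chart hf.1 x
    rw [← hφ] at hd
    have hderiv : ∀ v ∈ s, ‖deriv (f ∘ φ.symm) v‖ ≤ 1 / (r / 4) := by
      intro v hv
      have hvball : Metric.closedBall v (r / 4) ⊆ φ.target := by
        intro u hu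
        apply hball
        rw [Metric.mem_closedBall] at hu
        rw [Metric.mem_ball] at hv ⊢
        calc dist u (φ x) ≤ dist u v + dist v (φ x) := dist_triangle _ _ _
          _ < r / 4 + r / 4 := add_lt_add_of_le_of_lt hu hv
          _ ≤ r := by linarith
      exact Complex.norm_deriv_le_of_forall_mem_sphere_norm_le hr4
        (hd.diffContOnCl_ball hvball) fun u _ => hf.2 _
    have hconv : Convex ℝ s := convex_ball _ _
    have hdw : ∀ v ∈ s, HasDerivWithinAt (f ∘ φ.symm) (deriv (f ∘ φ.symm) v) s v := by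
      intro v hv
      have : DifferentiableAt ℂ (f ∘ φ.symm) v :=
        hd.differentiableAt (φ.open_target.mem_nhds (hsub hv))
      exact this.hasDerivAt.hasDerivWithinAt
    exact hconv.norm_image_sub_le_of_norm_hasDerivWithin_le hdw hderiv hw' hw
  have hne : (𝓝[B] g).NeBot := mem_closure_iff_nhdsWithin_neBot.1 hg
  have hpt : ∀ y : R, Tendsto (fun f : R → ℂ => f y) (𝓝[B] g) (𝓝 (g y)) := fun y =>
    ((continuous_apply y).tendsto g).mono_left nhdsWithin_le_nhds
  have hlipg : ∀ w ∈ s, ∀ w' ∈ s,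
      ‖g (φ.symm w) - g (φ.symm w')‖ ≤ (1 / (r / 4)) * ‖w - w'‖ := by
    intro w hw w' hw'
    refine le_of_tendsto ((hpt _).sub (hpt _)).norm ?_
    filter_upwards [self_mem_nhdsWithin] with f hf
    exact hlip f hf w hw w' hw'
  have htend : TendstoLocallyUniformlyOn (fun (f : R → ℂ) (w : ℂ) => f (φ.symm w))
      (fun w => g (φ.symm w)) (𝓝[B] g) s := by
    rw [Metric.tendstoLocallyUniformlyOn_iff]
    intro ε hε w hw
    refine ⟨Metric.ball w (ε / 3 * (r / 4)) ∩ s, ?_, ?_⟩
    · rw [inter_comm]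
      exact inter_mem_nhdsWithin _ (Metric.ball_mem_nhds _ (by positivity))
    · have h1 := (hpt (φ.symm w)).eventually (Metric.ball_mem_nhds _ (show 0 < ε / 3 by positivity))
      filter_upwards [h1, self_mem_nhdsWithin] with f hf1 hf2
      rintro u ⟨hu1, hu2⟩
      rw [Metric.mem_ball, dist_eq_norm] at hu1
      rw [dist_eq_norm] at hf1
      rw [dist_eq_norm]
      have e1 := hlipg u hu2 w hw
      have e2 := hlip f hf2 w hw u hu2
      have e3 : (1 / (r / 4)) * ‖u - w‖ < ε / 3 := by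
        rw [one_div, inv_mul_lt_iff₀ hr4]; linarith
      have e4 : ‖w - u‖ = ‖u - w‖ := norm_sub_rev _ _
      rw [e4] at e2
      calc ‖g (φ.symm u) - f (φ.symm u)‖
          = ‖(g (φ.symm u) - g (φ.symm w)) - (f (φ.symm w) - g (φ.symm w))
              + (f (φ.symm w) - f (φ.symm u))‖ := by congr 1; ring
        _ ≤ ‖(g (φ.symm u) - g (φ.symm w)) - (f (φ.symm w) - g (φ.symm w))‖
              + ‖f (φ.symm w) - f (φ.symm u)‖ := norm_add_le _ _
        _ ≤ ‖g (φ.symm u) - g (φ.symm w)‖ + ‖f (φ.symm w) - g (φ.symm w)‖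
              + ‖f (φ.symm w) - f (φ.symm u)‖ := by
            gcongr; exact norm_sub_le _ _
        _ < ε := by linarith
  have hdiff : DifferentiableOn ℂ (fun w => g (φ.symm w)) s := by
    refine htend.differentiableOn ?_ Metric.isOpen_ball
    filter_upwards [self_mem_nhdsWithin] with f hf
    exact (diff_chart hf.1 x).mono hsub
  have hxs' : φ x ∈ s := Metric.mem_ball_self hr4
  have hda : DifferentiableAt ℂ (g ∘ φ.symm) (φ x) :=
    hdiff.differentiableAt (Metric.isOpen_ball.mem_nhds hxs')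
  refine (mdiffAt_iff hxs).2 ⟨?_, hda⟩
  have h1 : ContinuousAt (fun y => (g ∘ φ.symm) (φ y)) x :=
    ContinuousAt.comp (g := g ∘ φ.symm) hda.continuousAt (φ.continuousAt hxs)
  refine h1.congr ?_
  filter_upwards [φ.open_source.mem_nhds hxs] with y hy
  simp [φ.left_inv hy]

theorem isCompact_ball :
    IsCompact {f : R → ℂ | MDifferentiable 𝓘(ℂ) 𝓘(ℂ) f ∧ ∀ x, ‖f x‖ ≤ 1} := by
  have hpi : IsCompact (Set.pi univ fun _ : R => Metric.closedBall (0 : ℂ) 1) :=
    isCompact_univ_pi fun _ => isCompact_closedBall 0 1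
  have hcl : IsClosed {f : R → ℂ | ∀ x, ‖f x‖ ≤ 1} := by
    simp only [ofPred_forall]
    exact isClosed_iInter fun x => isClosed_le (continuous_apply x).norm continuous_const
  refine hpi.of_isClosed_subset ?_ ?_
  · rw [← closure_subset_iff_isClosed]
    intro g hg
    refine ⟨mdiff_of_closure hg, ?_⟩
    exact (closure_minimal (fun f hf => hf.2) hcl) hg
  · rintro f ⟨-, hf⟩ x -
    simpa using hf x

/-! ### Poincare-Volterra -/

/-- A holomorphic function which is locally constant somewhere is constant. -/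
theorem const_of_locally_const [PreconnectedSpace R] {f : R → ℂ}
    (hf : MDifferentiable 𝓘(ℂ) 𝓘(ℂ) f) {x₀ : R} (h0 : ∀ᶠ y in 𝓝 x₀, f y = f x₀) (x y : R) :
    f x = f y := by
  set E : Set R := {x | ∀ᶠ y in 𝓝 x, f y = f x} with hE
  have hEo : IsOpen E := by
    rw [isOpen_iff_mem_nhds]
    intro x hx
    have := eventually_eventually_nhds.2 hx
    filter_upwards [this, hx] with y hy1 hy2
    show ∀ᶠ z in 𝓝 y, f z = f y
    rw [hy2]; exact hy1
  have hEc : IsClosed E := by
    rw [← closure_subset_iff_isClosed]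
    intro x hx
    set φ := chartAt ℂ x with hφ
    have hxs : x ∈ φ.source := mem_chart_source ℂ x
    have hφx : φ x ∈ φ.target := φ.map_source hxs
    obtain ⟨r, hr, hball⟩ := Metric.isOpen_iff.1 φ.open_target (φ x) hφx
    have hnb : φ.source ∩ φ ⁻¹' Metric.ball (φ x) r ∈ 𝓝 x := by
      refine inter_mem (φ.open_source.mem_nhds hxs) ?_
      exact (φ.continuousAt hxs) (Metric.ball_mem_nhds _ hr)
    obtain ⟨y, ⟨hys, hyb⟩, hyE⟩ := mem_closure_iff_nhds.1 hx _ hnb
    have han : AnalyticOnNhd ℂ (f ∘ φ.symm) (Metric.ball (φ x) r) :=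
      ((diff_chart hf x).mono hball).analyticOnNhd Metric.isOpen_ball
    have hev : (f ∘ φ.symm) =ᶠ[𝓝 (φ y)] fun _ => f y := by
      have h1 : Tendsto φ.symm (𝓝 (φ y)) (𝓝 y) := by
        have := φ.symm.continuousAt (x := φ y) (by simpa using φ.map_source hys)
        rw [ContinuousAt, φ.left_inv hys] at this
        exact this
      exact h1.eventually hyE
    have heq := han.eqOn_of_preconnected_of_eventuallyEq (analyticOnNhd_const (v := f y))
      (convex_ball (φ x) r).isPreconnected hyb hev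
    have hfx : f x = f y := by
      have := heq (Metric.mem_ball_self hr)
      simpa [φ.left_inv hxs] using this
    show ∀ᶠ z in 𝓝 x, f z = f x
    filter_upwards [hnb] with z hz
    have := heq hz.2
    simp only [Function.comp_apply, φ.left_inv hz.1] at this
    rw [this, hfx]
  have huniv : E = univ := by
    rcases isClopen_iff.1 ⟨hEc, hEo⟩ with h | h
    · exact absurd h0 (by
        have : x₀ ∉ E := by rw [h]; exact notMem_empty _
        exact this)
    · exact h
  have hloc : IsLocallyConstant f := by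
    rw [IsLocallyConstant.iff_eventually_eq]
    intro x
    have : x ∈ E := by rw [huniv]; exact mem_univ x
    exact this
  exact hloc.apply_eq_of_isPreconnected isPreconnected_univ (mem_univ x) (mem_univ y)

/-- Basic step of Poincare-Volterra: small components of preimages of basic open sets. -/
theorem exists_small_component [T2Space R] [PreconnectedSpace R] {f : R → ℂ}
    (hf : MDifferentiable 𝓘(ℂ) 𝓘(ℂ) f) (hnc : ∃ x y : R, f x ≠ f y) (x : R) :
    ∃ U ∈ TopologicalSpace.countableBasis ℂ, f x ∈ U ∧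
      TopologicalSpace.IsSeparable (connectedComponentIn (f ⁻¹' U) x) := by
  set φ := chartAt ℂ x with hφ
  have hxs : x ∈ φ.source := mem_chart_source ℂ x
  have hφx : φ x ∈ φ.target := φ.map_source hxs
  have han : AnalyticAt ℂ (f ∘ φ.symm) (φ x) :=
    (diff_chart hf x).analyticAt (φ.open_target.mem_nhds hφx)
  have hfx : (f ∘ φ.symm) (φ x) = f x := by simp [φ.left_inv hxs]
  have hiso : ∀ᶠ w in 𝓝[≠] (φ x), (f ∘ φ.symm) w ≠ f x := by
    rcases han.eventually_eq_or_eventually_ne (analyticAt_const (v := f x)) with h | h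
    · exfalso
      obtain ⟨a, b, hab⟩ := hnc
      refine hab (const_of_locally_const hf (x₀ := x) ?_ a b)
      have h1 : Tendsto φ (𝓝 x) (𝓝 (φ x)) := φ.continuousAt hxs
      filter_upwards [h1.eventually h, φ.open_source.mem_nhds hxs] with y hy hys
      simpa [φ.left_inv hys] using hy
    · exact h
  rw [eventually_nhdsWithin_iff, Metric.eventually_nhds_iff_ball] at hiso
  obtain ⟨r₁, hr₁, hiso⟩ := hiso
  obtain ⟨r₂, hr₂, hball⟩ := Metric.isOpen_iff.1 φ.open_target (φ x) hφx
  set r : ℝ := min r₁ r₂ / 2 with hr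
  have hr0 : 0 < r := by rw [hr]; positivity
  have hrr₁ : r < r₁ := by
    have : min r₁ r₂ ≤ r₁ := min_le_left _ _
    rw [hr]; linarith
  have hrr₂ : r < r₂ := by
    have : min r₁ r₂ ≤ r₂ := min_le_right _ _
    rw [hr]; linarith
  have hcb : Metric.closedBall (φ x) r ⊆ φ.target :=
    (Metric.closedBall_subset_ball hrr₂).trans hball
  set Q : Set R := φ.symm '' Metric.sphere (φ x) r with hQ
  have hQc : IsCompact Q := (isCompact_sphere _ _).image_of_continuousOn
    (φ.continuousOn_symm.mono (Metric.sphere_subset_closedBall.trans hcb))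
  have hfQ : IsCompact (f '' Q) := hQc.image_of_continuousOn
    (fun y _ => (hf y).continuousAt.continuousWithinAt)
  have hxQ : f x ∉ f '' Q := by
    rintro ⟨_, ⟨w, hw, rfl⟩, hw2⟩
    have hw' : w ∈ Metric.ball (φ x) r₁ := by
      rw [Metric.mem_sphere] at hw
      rw [Metric.mem_ball, hw]; exact hrr₁
    have hne : w ∈ ({φ x}ᶜ : Set ℂ) := by
      intro h
      rw [mem_singleton_iff] at h
      rw [h, Metric.mem_sphere, dist_self] at hw
      linarith
    exact hiso w hw' hne hw2
  obtain ⟨U, hU, hxU, hUsub⟩ := (TopologicalSpace.isBasis_countableBasis ℂ).exists_subset_of_mem_open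
    (show f x ∈ (f '' Q)ᶜ from hxQ) hfQ.isClosed.isOpen_compl
  refine ⟨U, hU, hxU, ?_⟩
  set W : Set R := φ.symm '' Metric.ball (φ x) r with hW
  have hWo : IsOpen W := φ.symm.isOpen_image_of_subset_source Metric.isOpen_ball
    ((Metric.ball_subset_closedBall.trans hcb))
  set Kc : Set R := φ.symm '' Metric.closedBall (φ x) r with hKc
  have hKcc : IsCompact Kc := (isCompact_closedBall _ _).image_of_continuousOn
    (φ.continuousOn_symm.mono hcb)
  have hKW : Kc = W ∪ Q := by
    rw [hKc, hW, hQ, ← image_union, Metric.ball_union_sphere]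
  have hxW : x ∈ W := ⟨φ x, Metric.mem_ball_self hr0, φ.left_inv hxs⟩
  have hCpre : IsPreconnected (connectedComponentIn (f ⁻¹' U) x) := isPreconnected_connectedComponentIn
  have hCsub : connectedComponentIn (f ⁻¹' U) x ⊆ W := by
    have hsub1 : connectedComponentIn (f ⁻¹' U) x ⊆ W ∪ Kcᶜ := by
      intro y hy
      have hyU : f y ∈ U := connectedComponentIn_subset (f ⁻¹' U) x hy
      by_cases hyW : y ∈ W
      · exact Or.inl hyW
      · refine Or.inr fun hyK => ?_
        rw [hKW] at hyK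
        rcases hyK with h | h
        · exact hyW h
        · exact hUsub hyU ⟨y, h, rfl⟩
    refine hCpre.subset_left_of_subset_union hWo hKcc.isClosed.isOpen_compl ?_ hsub1 ?_
    · rw [disjoint_compl_right_iff_subset, hKW]; exact subset_union_left
    · exact ⟨x, mem_connectedComponentIn hxU, hxW⟩
  refine TopologicalSpace.IsSeparable.mono ?_ hCsub
  have hcont : Continuous fun w : Metric.ball (φ x) r => φ.symm w :=
    continuousOn_iff_continuous_restrict.1
      (φ.continuousOn_symm.mono (Metric.ball_subset_closedBall.trans hcb))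
  have := TopologicalSpace.isSeparable_range hcont
  rw [hW, image_eq_range]
  exact this

theorem IsSeparable.inter_nonempty {X : Type*} [TopologicalSpace X] {O D : Set X}
    (hO : IsOpen O) (hne : O.Nonempty) (h : O ⊆ closure D) : (O ∩ D).Nonempty := by
  obtain ⟨y, hy⟩ := hne
  exact mem_closure_iff.1 (h hy) O hO hy

theorem separable_of_nonconst [T2Space R] [ConnectedSpace R] {f : R → ℂ}
    (hf : MDifferentiable 𝓘(ℂ) 𝓘(ℂ) f) (hnc : ∃ x y : R, f x ≠ f y) :
    TopologicalSpace.SeparableSpace R := by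
  haveI : LocallyConnectedSpace R := ChartedSpace.locallyConnectedSpace ℂ R
  have hfc : Continuous f := hf.continuous
  set 𝔅 := TopologicalSpace.countableBasis ℂ with h𝔅
  have h𝔅o : ∀ U ∈ 𝔅, IsOpen U := fun U hU => TopologicalSpace.isOpen_of_mem_countableBasis hU
  set VV : Set (Set R) := {V | ∃ U ∈ 𝔅, ∃ x, f x ∈ U ∧ V = connectedComponentIn (f ⁻¹' U) x ∧
    TopologicalSpace.IsSeparable V} with hVV
  have hVo : ∀ V ∈ VV, IsOpen V := by
    rintro V ⟨U, hU, x, -, rfl, -⟩
    exact ((h𝔅o U hU).preimage hfc).connectedComponentIn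
  have hcov : ∀ x, ∃ V ∈ VV, x ∈ V := by
    intro x
    obtain ⟨U, hU, hxU, hsep⟩ := exists_small_component hf hnc x
    exact ⟨_, ⟨U, hU, x, hxU, rfl, hsep⟩, mem_connectedComponentIn hxU⟩
  -- countably many meet a separable open set
  have hcount : ∀ O : Set R, IsOpen O → TopologicalSpace.IsSeparable O →
      {V ∈ VV | (V ∩ O).Nonempty}.Countable := by
    rintro O hO ⟨D, hD, hOD⟩
    have hc : ((fun p : Set ℂ × R => connectedComponentIn (f ⁻¹' p.1) p.2) '' (𝔅 ×ˢ D)).Countable :=
      ((TopologicalSpace.countable_countableBasis ℂ).prod hD).image _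
    refine hc.mono ?_
    rintro V ⟨hV, hne⟩
    obtain ⟨d, ⟨hdV, -⟩, hdD⟩ := IsSeparable.inter_nonempty ((hVo V hV).inter hO) hne
      (inter_subset_right.trans hOD)
    obtain ⟨U, hU, x, hx, rfl, -⟩ := hV
    exact ⟨(U, d), ⟨hU, hdD⟩, (connectedComponentIn_eq hdV).symm⟩
  obtain ⟨x₀⟩ : Nonempty R := inferInstance
  obtain ⟨V₀, hV₀, hxV₀⟩ := hcov x₀
  let O : ℕ → Set R := fun n => Nat.rec V₀ (fun _ P => P ∪ ⋃₀ {V ∈ VV | (V ∩ P).Nonempty}) n
  have hO0 : O 0 = V₀ := rfl
  have hOs : ∀ n, O (n + 1) = O n ∪ ⋃₀ {V ∈ VV | (V ∩ O n).Nonempty} := fun n => rfl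
  have hO : ∀ n, IsOpen (O n) ∧ TopologicalSpace.IsSeparable (O n) := by
    intro n
    induction n with
    | zero =>
      refine ⟨hVo _ hV₀, ?_⟩
      obtain ⟨U, hU, x, -, -, h⟩ := hV₀
      exact h
    | succ n ih =>
      rw [hOs]
      refine ⟨ih.1.union (isOpen_sUnion fun V hV => hVo V hV.1), ih.2.union ?_⟩
      have hc := hcount _ ih.1 ih.2
      rw [sUnion_eq_iUnion]
      haveI := hc.to_subtype
      refine TopologicalSpace.IsSeparable.iUnion fun V => ?_
      obtain ⟨U, hU, x, -, -, h⟩ := V.2.1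
      exact h
  have hopen : IsOpen (⋃ n, O n) := isOpen_iUnion fun n => (hO n).1
  have hclosed : IsClosed (⋃ n, O n) := by
    rw [← closure_subset_iff_isClosed]
    intro x hx
    obtain ⟨V, hV, hxV⟩ := hcov x
    obtain ⟨y, hyV, hyO⟩ := mem_closure_iff.1 hx V (hVo V hV) hxV
    obtain ⟨n, hn⟩ := mem_iUnion.1 hyO
    refine mem_iUnion.2 ⟨n + 1, ?_⟩
    rw [hOs]
    exact Or.inr ⟨V, ⟨hV, y, hyV, hn⟩, hxV⟩
  have huniv : (⋃ n, O n) = univ := by
    rcases isClopen_iff.1 ⟨hclosed, hopen⟩ with h | h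
    · exfalso
      have : x₀ ∈ ⋃ n, O n := mem_iUnion.2 ⟨0, hxV₀⟩
      rw [h] at this
      exact this
    · exact h
  have hsep : TopologicalSpace.IsSeparable (univ : Set R) := by
    rw [← huniv]
    exact TopologicalSpace.IsSeparable.iUnion fun n => (hO n).2
  exact TopologicalSpace.isSeparable_univ_iff.1 hsep

end Pool.Agent.MP43a64b
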